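import Pool.Agent.N483.KM.StmW

/-!
# The volume of the body over a weight (for helper483)
-/

set_option autoImplicit false

namespace Pool.Agent.N383.KMW

open MeasureTheory Set Filter Topology
open scoped ENNReal
open Pool.Agent.N483.KM
open Pool.Agent.R754.KG (E)

/-! ### Volumes under linear equivalences -/

theorem vol_img {V W : Type} [NormedAddCommGroup V] [NormedSpace ℝ V] [FiniteDimensional ℝ V]
    [MeasureSpace V] [BorelSpace V] [(volume : Measure V).IsAddHaarMeasure]
    [NormedAddCommGroup W] [NormedSpace ℝ W] [FiniteDimensional ℝ W]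
    [MeasureSpace W] [BorelSpace W] [(volume : Measure W).IsAddHaarMeasure] (e : V ≃ₗ[ℝ] W) :
    ∃ c : ℝ≥0∞, c ≠ 0 ∧ c ≠ ⊤ ∧ ∀ A : Set V, volume (e '' A) = c * volume A := by
  let e' : V ≃L[ℝ] W := e.toContinuousLinearEquiv
  let ν : Measure V := Measure.map e'.symm volume
  have hν : ν.IsAddHaarMeasure := ContinuousLinearEquiv.isAddHaarMeasure_map e'.symm volume
  have h1 := Measure.isAddLeftInvariant_eq_smul ν (volume : Measure V)
  refine ⟨(Measure.addHaarScalarFactor ν volume : ℝ≥0∞), ?_, ENNReal.coe_ne_top, fun A => ?_⟩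
  · have h2 := Measure.addHaarScalarFactor_pos_of_isAddHaarMeasure ν (volume : Measure V)
    exact_mod_cast h2.ne'
  · have h2 : ν A = volume (e '' A) := by
      have h3 : ν A = volume (e'.symm ⁻¹' A) :=
        e'.symm.toHomeomorph.toMeasurableEquiv.map_apply A
      rw [h3]
      congr 1
      exact (e.toEquiv.image_eq_preimage_symm A).symm
    have h4 : ν A = (Measure.addHaarScalarFactor ν volume • (volume : Measure V)) A :=
      congrArg (fun m : Measure V => m A) h1
    rw [← h2, h4, Measure.smul_apply]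
    rfl

/-! ### The weight `gM` -/

variable {n : ℕ} {u : E n → ℝ} {M : ℕ}

theorem gM_meas (hu : Measurable u) (M : ℕ) : Measurable (gM u M) := by
  unfold gM
  refine Measurable.ite (measurableSet_lt measurable_const hu) ?_ measurable_const
  exact (measurable_const.add ((Real.measurable_log.comp hu).div_const _)).max measurable_const

theorem gM_nonneg (u : E n → ℝ) (M : ℕ) (x : E n) : 0 ≤ gM u M x := by
  unfold gM
  split_ifs
  · exact le_max_right _ _
  · exact le_rfl

theorem gM_pow_le (hM : 1 ≤ M) (hu0 : ∀ x, 0 ≤ u x) (x : E n) : gM u M x ^ M ≤ u x := by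
  have hM0 : M ≠ 0 := by omega
  have hMR : (0 : ℝ) < M := by exact_mod_cast hM
  unfold gM
  split_ifs with h
  · by_cases h1 : 0 ≤ 1 + Real.log (u x) / M
    · rw [max_eq_left h1]
      have h2 : 1 + Real.log (u x) / M ≤ Real.exp (Real.log (u x) / M) := by
        have := Real.add_one_le_exp (Real.log (u x) / M)
        linarith
      calc (1 + Real.log (u x) / M) ^ M ≤ Real.exp (Real.log (u x) / M) ^ M :=
            pow_le_pow_left₀ h1 h2 M
        _ = u x := by
            rw [← Real.exp_nat_mul, mul_div_cancel₀ _ hMR.ne', Real.exp_log h]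
    · rw [max_eq_right (not_le.1 h1).le, zero_pow hM0]
      exact h.le
  · rw [zero_pow hM0]
    exact hu0 x

theorem gM_zero (hM : 1 ≤ M) {x : E n} (h : ¬ Real.exp (-M) ≤ u x) :
    gM u M x = 0 := by
  have hMR : (0 : ℝ) < M := by exact_mod_cast hM
  unfold gM
  split_ifs with h1
  · refine max_eq_right ?_
    have h2 : Real.log (u x) < -M := by
      rw [Real.log_lt_iff_lt_exp h1]
      exact not_le.1 h
    have h3 : Real.log (u x) / M < -1 := by
      rw [div_lt_iff₀ hMR]
      linarith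
    linarith
  · rfl

theorem vol_cube (M : ℕ) (a : ℝ) (ha : 0 ≤ a) :
    volume {y : E M | ∀ i, |y i| ≤ a / 2} = ENNReal.ofReal (a ^ M) := by
  have h1 : {y : E M | ∀ i, |y i| ≤ a / 2} =
      (fun y : E M => WithLp.ofLp y) ⁻¹' (Set.pi univ fun _ : Fin M => Icc (-(a / 2)) (a / 2)) := by
    ext y
    simp only [mem_ofPred_eq, mem_preimage, Set.mem_pi, mem_univ, true_implies, mem_Icc, abs_le]
  have h2 : MeasurableSet (Set.pi univ fun _ : Fin M => Icc (-(a / 2)) (a / 2)) :=
    MeasurableSet.univ_pi fun _ => measurableSet_Icc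
  rw [h1, (PiLp.volume_preserving_ofLp (Fin M)).measure_preimage h2.nullMeasurableSet, volume_pi_pi]
  simp only [Real.volume_Icc, Finset.prod_const, Finset.card_univ, Fintype.card_fin]
  rw [← ENNReal.ofReal_pow (by linarith)]
  congr 2
  ring

theorem BW_meas (hu : Measurable u) (M : ℕ) : MeasurableSet (BW u M) := by
  have h1 : BW u M = {z : E n × E M | Real.exp (-M) ≤ u z.1} ∩
      ⋂ i : Fin M, {z : E n × E M | |z.2 i| ≤ gM u M z.1 / 2} := by
    ext z
    simp only [BW, mem_ofPred_eq, mem_inter_iff, mem_iInter]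
  rw [h1]
  refine (measurableSet_le measurable_const (hu.comp measurable_fst)).inter
    (MeasurableSet.iInter fun i => ?_)
  refine measurableSet_le ?_ (((gM_meas hu M).comp measurable_fst).div_const _)
  have h2 : Measurable fun z : E n × E M => z.2 i :=
    ((EuclideanSpace.proj i : E M →L[ℝ] ℝ).continuous.comp continuous_snd).measurable
  exact h2.norm

/-- The volume of the body over a weight. -/
theorem vol_BW (hM : 1 ≤ M) (hu : Measurable u) :
    volume (BW u M) = ∫⁻ x, ENNReal.ofReal (gM u M x ^ M) := by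
  have hM0 : M ≠ 0 := by omega
  rw [Measure.volume_eq_prod, Measure.prod_apply (BW_meas hu M)]
  refine lintegral_congr fun x => ?_
  by_cases h : Real.exp (-M) ≤ u x
  · have h1 : Prod.mk x ⁻¹' BW u M = {y : E M | ∀ i, |y i| ≤ gM u M x / 2} := by
      ext y
      simp only [BW, mem_preimage, mem_ofPred_eq]
      exact ⟨fun h2 => h2.2, fun h2 => ⟨h, h2⟩⟩
    rw [h1, vol_cube M _ (gM_nonneg u M x)]
  · have h1 : Prod.mk x ⁻¹' BW u M = ∅ := by
      ext y
      simp only [BW, mem_preimage, mem_ofPred_eq, mem_empty_iff_false, iff_false]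
      exact fun h2 => h h2.1
    rw [h1, measure_empty, gM_zero hM h, zero_pow hM0, ENNReal.ofReal_zero]

theorem gM_int (hM : 1 ≤ M) (hu : Measurable u) (hu0 : ∀ x, 0 ≤ u x) (hi : Integrable u) :
    Integrable fun x => gM u M x ^ M := by
  refine Integrable.mono' hi ((gM_meas hu M).pow_const M).aestronglyMeasurable
    (Eventually.of_forall fun x => ?_)
  rw [Real.norm_of_nonneg (pow_nonneg (gM_nonneg u M x) M)]
  exact gM_pow_le hM hu0 x

theorem vol_BW_toReal (hM : 1 ≤ M) (hu : Measurable u) (hu0 : ∀ x, 0 ≤ u x) (hi : Integrable u) :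
    (volume (BW u M)).toReal = ∫ x, gM u M x ^ M := by
  rw [vol_BW hM hu, ← ofReal_integral_eq_lintegral_ofReal (gM_int hM hu hu0 hi)
    (Eventually.of_forall fun x => pow_nonneg (gM_nonneg u M x) M), ENNReal.toReal_ofReal]
  exact integral_nonneg fun x => pow_nonneg (gM_nonneg u M x) M

theorem int_gM_le (hM : 1 ≤ M) (hu : Measurable u) (hu0 : ∀ x, 0 ≤ u x) (hi : Integrable u) :
    ∫ x, gM u M x ^ M ≤ ∫ x, u x :=
  integral_mono (gM_int hM hu hu0 hi) hi fun x => gM_pow_le hM hu0 x

/-! ### Exponential decay -/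

theorem exp_int (N : ℕ) {b : ℝ} (hb : 0 < b) : Integrable fun x : E N => Real.exp (-(b * ‖x‖)) := by
  have h1 : Integrable fun x : E N => (1 + ‖x‖) ^ (-((N : ℝ) + 1)) := by
    refine integrable_one_add_norm ?_
    rw [finrank_euclideanSpace_fin]
    linarith
  obtain ⟨C, hC⟩ : ∃ C : ℝ, C = ((N + 1).factorial : ℝ) / b ^ (N + 1) * Real.exp b := ⟨_, rfl⟩
  refine Integrable.mono' (h1.const_mul C) (by fun_prop) (Eventually.of_forall fun x => ?_)
  rw [Real.norm_of_nonneg (Real.exp_pos _).le]
  have hs : 0 ≤ ‖x‖ := norm_nonneg x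
  have h2 := Real.pow_div_factorial_le_exp (b * (1 + ‖x‖)) (by positivity) (N + 1)
  have h3 : (1 + ‖x‖) ^ (-((N : ℝ) + 1)) = ((1 + ‖x‖) ^ (N + 1))⁻¹ := by
    rw [Real.rpow_neg (by positivity)]
    congr 1
    exact_mod_cast Real.rpow_natCast (1 + ‖x‖) (N + 1)
  rw [h3, hC]
  have h4 : Real.exp (b * (1 + ‖x‖)) = Real.exp b * Real.exp (b * ‖x‖) := by
    rw [← Real.exp_add]
    congr 1
    ring
  have hf : (0 : ℝ) < (N + 1).factorial := by exact_mod_cast Nat.factorial_pos _
  have hp : 0 < (1 + ‖x‖) ^ (N + 1) := by positivity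
  rw [div_le_iff₀ hf, mul_pow, h4] at h2
  rw [Real.exp_neg]
  have he := Real.exp_pos (b * ‖x‖)
  have hbp : 0 < b ^ (N + 1) := by positivity
  rw [inv_le_iff_one_le_mul₀ he]
  have h5 : ((N + 1).factorial : ℝ) / b ^ (N + 1) * Real.exp b * ((1 + ‖x‖) ^ (N + 1))⁻¹ *
      Real.exp (b * ‖x‖) = (Real.exp b * Real.exp (b * ‖x‖) * (N + 1).factorial) /
        (b ^ (N + 1) * (1 + ‖x‖) ^ (N + 1)) := by
    field_simp
  rw [h5, le_div_iff₀ (by positivity), one_mul]
  exact h2

end Pool.Agent.N383.KMW
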