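import Pool.Agent.N483.KM.Stm1
import Pool.Agent.R755.KF.K1
import Pool.Agent.R755.KF.K3

/-!
# KM/WINC: the window, when fibres of nearby points are at most exponentially larger (helper383)
-/

set_option autoImplicit false

namespace Pool.Agent.N383.KM

open MeasureTheory Set Filter Topology
open scoped ENNReal InnerProductSpace
open Pool.Agent.R754.KG (E un sl Rv R_nonneg)
open Pool.Agent.R755.KF (CB geo S_GEO)
open Pool.Agent.R755.KF.K3aux (tail1 chg)
open Pool.Agent.R683.KFx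

/-- volume of a homothetic image -/
lemma hom_vol {d : ℕ} (g : ℝ) (hg : 0 < g) (ts : E d) (W : Set (E d)) (hW : MeasurableSet W) :
    MeasurableSet {t : E d | ts + g⁻¹ • (t - ts) ∈ W} ∧
      volume {t : E d | ts + g⁻¹ • (t - ts) ∈ W} = ENNReal.ofReal (g ^ d) * volume W := by
  obtain ⟨J, hJ⟩ : ∃ J : Set (E d), J = {t | ts + g⁻¹ • (t - ts) ∈ W} := ⟨_, rfl⟩
  have hJm : MeasurableSet J := by
    rw [hJ]
    have : Continuous fun t : E d => ts + g⁻¹ • (t - ts) := by fun_prop
    exact this.measurable hW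
  rw [← hJ]
  refine ⟨hJm, ?_⟩
  have h1 := chg g hg ts (J.indicator fun _ => (1 : ℝ≥0∞))
  rw [lintegral_indicator hJm, setLIntegral_const, one_mul] at h1
  rw [h1]
  congr 1
  have h2 : (fun t : E d => J.indicator (fun _ => (1 : ℝ≥0∞)) (ts + g • (t - ts))) =
      W.indicator fun _ => 1 := by
    funext t
    have h3 : ts + g • (t - ts) ∈ J ↔ t ∈ W := by
      rw [hJ, mem_ofPred_eq, add_sub_cancel_left, smul_smul, inv_mul_cancel₀ hg.ne', one_smul,
        add_sub_cancel]
    by_cases h : t ∈ W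
    · rw [indicator_of_mem h, indicator_of_mem (h3.2 h)]
    · rw [indicator_of_notMem h, indicator_of_notMem (fun h' => h (h3.1 h'))]
  rw [h2, lintegral_indicator hW, setLIntegral_const, one_mul]

/-- from the centre to a point of a layer -/
lemma geo_c {N d : ℕ} {K : Set (E N × E d)} (hK : CB K) {ts w : E d} {S b g : ℝ} (hS : S = Rv K ts)
    (hS0 : 0 < S) (hg : 0 < g) (hg1 : g ≤ 1) (hw : Real.exp (-b) * S ≤ Rv K w) :
    Real.exp (-(b * g)) * S ≤ Rv K (ts + g • (w - ts)) := by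
  rcases hg1.lt_or_eq with hg1 | rfl
  · have h1 := geo N d K hK ts w g hg hg1
    have e1 : (1 - g) • ts + g • w = ts + g • (w - ts) := by
      rw [smul_sub, sub_smul, one_smul]
      abel
    rw [e1] at h1
    refine le_trans ?_ h1
    rw [← hS]
    have h2 : (Real.exp (-b) * S) ^ g ≤ Rv K w ^ g :=
      Real.rpow_le_rpow (by positivity) hw hg.le
    have h3 : Real.exp (-(b * g)) * S = S ^ (1 - g) * (Real.exp (-b) * S) ^ g := by
      rw [Real.mul_rpow (Real.exp_pos _).le hS0.le]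
      have e2 : (Real.exp (-b)) ^ g = Real.exp (-(b * g)) := by
        rw [← Real.exp_mul]
        congr 1
        ring
      rw [e2]
      have e3 : S ^ (1 - g) * S ^ g = S := by
        rw [← Real.rpow_add hS0, sub_add_cancel, Real.rpow_one]
      calc Real.exp (-(b * g)) * S = Real.exp (-(b * g)) * (S ^ (1 - g) * S ^ g) := by rw [e3]
        _ = _ := by ring
    rw [h3]
    exact mul_le_mul_of_nonneg_left h2 (Real.rpow_nonneg hS0.le _)
  · rw [mul_one, one_smul, add_sub_cancel]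
    exact hw

/-- superlevel sets are convex -/
lemma lev_conv {N d : ℕ} {K : Set (E N × E d)} (hK : CB K) {m : ℝ} (hm : 0 < m) :
    Convex ℝ {t : E d | m ≤ Rv K t} := by
  refine convex_iff_forall_pos.2 fun x hx y hy a b ha hb hab => ?_
  have hx' : m ≤ Rv K x := hx
  have hy' : m ≤ Rv K y := hy
  have ha' : a = 1 - b := by linarith
  have hb1 : b < 1 := by linarith
  have h1 := geo N d K hK x y b hb hb1
  show m ≤ Rv K (a • x + b • y)
  rw [ha']
  refine le_trans ?_ h1
  calc m = m ^ (1 - b) * m ^ b := by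
        rw [← Real.rpow_add hm, sub_add_cancel, Real.rpow_one]
    _ ≤ _ := mul_le_mul (Real.rpow_le_rpow hm.le hx' (by linarith))
        (Real.rpow_le_rpow hm.le hy' hb.le) (Real.rpow_nonneg hm.le _)
        (Real.rpow_nonneg (R_nonneg _) _)

theorem t_WINC : Pool.Agent.N483.KM.S_WINC := by
  intro d c hc
  have hd0 : (0 : ℝ) < 2 * ((d : ℝ) + 1) := by positivity
  refine ⟨Real.exp (-1) / 2 / (Real.exp c * (2 * ((d : ℝ) + 1)) ^ d), by positivity, ?_⟩
  intro δ hδ hδ1 N K ts hK hR hcen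
  obtain ⟨a, ha⟩ : ∃ a : ℝ, a = Real.exp (-((d : ℝ) + 1)) := ⟨_, rfl⟩
  obtain ⟨m, hm⟩ : ∃ m : ℝ, m = 2 * ((d : ℝ) + 1) := ⟨_, rfl⟩
  obtain ⟨S, hS⟩ : ∃ S : ℝ, S = Rv K ts := ⟨_, rfl⟩
  have hS0 : 0 < S := by rw [hS]; exact hR
  have ha0 : 0 < a := by rw [ha]; exact Real.exp_pos _
  have hm0 : 0 < m := by rw [hm]; exact hd0
  have hm1 : m⁻¹ ≤ 1 := by
    apply inv_le_one_of_one_le₀
    have : (0 : ℝ) ≤ d := Nat.cast_nonneg d
    rw [hm]
    linarith
  have ha2 : a ^ 2 = Real.exp (-m) := by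
    rw [ha, hm, ← Real.exp_nat_mul]
    congr 1
    push_cast
    ring
  have had : a * 2 ^ d ≤ 1 / 2 := by
    have h1 : Real.exp (-1) ≤ 1 / 2 := by
      rw [Real.exp_neg, one_div]
      apply inv_anti₀ (by norm_num)
      have := Real.add_one_le_exp (1 : ℝ)
      linarith
    have h2 : a = Real.exp (-1) ^ (d + 1) := by
      rw [ha, ← Real.exp_nat_mul]
      congr 1
      push_cast
      ring
    have h3 : Real.exp (-1) ^ (d + 1) ≤ (1 / 2) ^ (d + 1) :=
      pow_le_pow_left₀ (Real.exp_pos _).le h1 _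
    calc a * 2 ^ d ≤ (1 / 2) ^ (d + 1) * 2 ^ d := by
          rw [h2]
          exact mul_le_mul_of_nonneg_right h3 (by positivity)
      _ = 1 / 2 := by
          rw [pow_succ, mul_right_comm, ← mul_pow]
          norm_num
  have hcen' : ∀ t : E d, Real.exp (-1) * S ≤ Rv K t → ∀ x : ℝ, 0 ≤ x → x ≤ 1 →
      Rv K (ts + x • (t - ts)) ≤ Real.exp (c * x) * S := by
    intro t ht x hx0 hx1
    rw [hS]
    refine hcen t ?_ x hx0 hx1
    rw [← hS]
    have h1 : Real.exp 1 * (Real.exp (-1) * S) = S := by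
      rw [← mul_assoc, ← Real.exp_add, add_neg_cancel, Real.exp_zero, one_mul]
    calc S = Real.exp 1 * (Real.exp (-1) * S) := h1.symm
      _ ≤ _ := mul_le_mul_of_nonneg_left ht (Real.exp_pos _).le
  -- the sets
  obtain ⟨W, hW⟩ : ∃ W : Set (E d), W = {t | Real.exp (-1) * S ≤ Rv K t} := ⟨_, rfl⟩
  have hWm : MeasurableSet W := by
    rw [hW]
    exact (Pool.Agent.R683.KFx.R_meas hK) measurableSet_Ici
  have hWc : Convex ℝ W := by
    rw [hW]
    exact lev_conv hK (by positivity)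
  obtain ⟨V, hV⟩ : ∃ V : Set (E d), V = {t | a ^ 2 * S ≤ Rv K t} := ⟨_, rfl⟩
  have hVm : MeasurableSet V := by
    rw [hV]
    exact (Pool.Agent.R683.KFx.R_meas hK) measurableSet_Ici
  have hVW : volume V ≤ ENNReal.ofReal (m ^ d) * volume W := by
    rw [← (hom_vol m hm0 ts W hWm).2]
    refine measure_mono fun t ht => ?_
    rw [hV, mem_ofPred_eq, ha2] at ht
    have h1 := geo_c hK hS hS0 (inv_pos.2 hm0) hm1 ht
    rw [mul_inv_cancel₀ hm0.ne'] at h1
    show ts + m⁻¹ • (t - ts) ∈ W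
    rw [hW]
    exact h1
  have hVu : ∀ t ∈ V, Rv K t ≤ Real.exp c * S := by
    intro t _
    by_cases h : Real.exp (-1) * S ≤ Rv K t
    · have := hcen' t h 1 zero_le_one le_rfl
      rwa [one_smul, add_sub_cancel, mul_one] at this
    · have h1 : Real.exp (-1) ≤ Real.exp c := Real.exp_le_exp.2 (by linarith)
      exact (not_le.1 h).le.trans (mul_le_mul_of_nonneg_right h1 hS0.le)
  obtain ⟨J, hJ⟩ : ∃ J : Set (E d), J = {t | ts + δ⁻¹ • (t - ts) ∈ W} := ⟨_, rfl⟩
  have hJm : MeasurableSet J := by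
    rw [hJ]
    exact (hom_vol δ hδ ts W hWm).1
  have hvJ : volume J = ENNReal.ofReal (δ ^ d) * volume W := by
    rw [hJ]
    exact (hom_vol δ hδ ts W hWm).2
  have hJb : ∀ t ∈ J, Real.exp (-δ) * Rv K ts ≤ Rv K t ∧ Rv K t ≤ Real.exp (c * δ) * Rv K ts := by
    intro t ht
    rw [hJ, mem_ofPred_eq, hW, mem_ofPred_eq] at ht
    have e1 : ts + δ • ((ts + δ⁻¹ • (t - ts)) - ts) = t := by
      rw [add_sub_cancel_left, smul_smul, mul_inv_cancel₀ hδ.ne', one_smul, add_sub_cancel]
    have h1 := geo_c hK hS hS0 hδ hδ1 ht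
    have h2 := hcen' _ ht δ hδ.le hδ1
    rw [e1] at h1 h2
    rw [one_mul] at h1
    rw [← hS]
    exact ⟨h1, h2⟩
  refine ⟨J, hJm, ?_, ?_, hJb, ?_⟩
  · intro x hx y hy p q hp hq hpq
    rw [hJ, mem_ofPred_eq] at hx hy ⊢
    have h1 := hWc hx hy hp hq hpq
    have e1 : p • (ts + δ⁻¹ • (x - ts)) + q • (ts + δ⁻¹ • (y - ts)) =
        ts + δ⁻¹ • (p • x + q • y - ts) := by
      have hp' : p = 1 - q := by linarith
      rw [hp']
      module
    rwa [e1] at h1
  · rw [hJ, mem_ofPred_eq, sub_self, smul_zero, add_zero, hW, mem_ofPred_eq, ← hS]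
    exact mul_le_of_le_one_left hS0.le (Real.exp_le_one_iff.2 (by norm_num))
  -- the mass
  have hlow : ENNReal.ofReal (Real.exp (-δ) * S) * volume J ≤ ∫⁻ t in J, volume (sl K t) := by
    rw [← setLIntegral_const]
    refine setLIntegral_mono' hJm fun t ht => ?_
    rw [Pool.Agent.R683.KFx.R_vol hK t]
    refine ENNReal.ofReal_le_ofReal ?_
    rw [hS]
    exact (hJb t ht).1
  have hup : volume K ≤ 2 * (ENNReal.ofReal (Real.exp c * S) * volume V) := by
    have h1 := tail1 (ρ := 0) (S := S) (a := a) geo hK ha0.le (ts := ts)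
      (by rw [sub_zero, one_mul, hS])
    rw [sub_zero, one_mul] at h1
    have h2 : {t : E d | Rv K t < a ^ 2 * S} = Vᶜ := by
      rw [hV]
      ext t
      simp
    rw [h2] at h1
    have h3 : ∫⁻ t in V, volume (sl K t) ≤ ENNReal.ofReal (Real.exp c * S) * volume V := by
      rw [← setLIntegral_const]
      refine setLIntegral_mono' hVm fun t ht => ?_
      rw [Pool.Agent.R683.KFx.R_vol hK t]
      exact ENNReal.ofReal_le_ofReal (hVu t ht)
    have h4 : volume K = (∫⁻ t in V, volume (sl K t)) + ∫⁻ t in Vᶜ, volume (sl K t) := by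
      rw [lintegral_add_compl _ hVm, ← Pool.Agent.R683.KFx.vol_fub hK]
    have h5 : ENNReal.ofReal (a * 2 ^ d) * volume K ≤ ENNReal.ofReal (1 / 2) * volume K :=
      mul_le_mul_left (ENNReal.ofReal_le_ofReal had) _
    have hKf : volume K ≠ ⊤ := Pool.Agent.R683.KFx.kfin hK
    have h6 : volume K ≤ ENNReal.ofReal (Real.exp c * S) * volume V +
        ENNReal.ofReal (1 / 2) * volume K := by
      calc volume K = (∫⁻ t in V, volume (sl K t)) + ∫⁻ t in Vᶜ, volume (sl K t) := h4
        _ ≤ _ := add_le_add h3 (h1.trans h5)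
    have h7 : volume K = ENNReal.ofReal (1 / 2) * volume K + ENNReal.ofReal (1 / 2) * volume K := by
      rw [← add_mul, ← ENNReal.ofReal_add (by norm_num) (by norm_num)]
      norm_num
    have h8 : ENNReal.ofReal (1 / 2) * volume K ≤ ENNReal.ofReal (Real.exp c * S) * volume V := by
      have hfin : ENNReal.ofReal (1 / 2) * volume K ≠ ⊤ :=
        ENNReal.mul_ne_top ENNReal.ofReal_ne_top hKf
      have h9 : ENNReal.ofReal (1 / 2) * volume K + ENNReal.ofReal (1 / 2) * volume K ≤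
          ENNReal.ofReal (Real.exp c * S) * volume V + ENNReal.ofReal (1 / 2) * volume K := by
        rw [← h7]; exact h6
      exact (ENNReal.add_le_add_iff_right hfin).1 h9
    calc volume K = ENNReal.ofReal (1 / 2) * volume K + ENNReal.ofReal (1 / 2) * volume K := h7
      _ ≤ ENNReal.ofReal (Real.exp c * S) * volume V +
        ENNReal.ofReal (Real.exp c * S) * volume V := add_le_add h8 h8
      _ = _ := (two_mul _).symm
  have hup2 : volume K ≤ ENNReal.ofReal (2 * (Real.exp c * S) * m ^ d) * volume W := by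
    refine hup.trans ?_
    refine (mul_le_mul_right (mul_le_mul_right hVW _) _).trans (le_of_eq ?_)
    have h2 : ENNReal.ofReal 2 = 2 := by norm_num
    rw [ENNReal.ofReal_mul (by positivity : (0 : ℝ) ≤ 2 * (Real.exp c * S)),
      ENNReal.ofReal_mul (by norm_num : (0 : ℝ) ≤ 2), h2]
    ring
  refine le_trans ?_ hlow
  rw [hvJ]
  refine (mul_le_mul_right hup2 _).trans ?_
  have e8 : ∀ x y : ℝ, 0 ≤ x → ENNReal.ofReal x * (ENNReal.ofReal y * volume W) =
      ENNReal.ofReal (x * y) * volume W := by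
    intro x y hx
    rw [← mul_assoc, ← ENNReal.ofReal_mul hx]
  rw [e8 _ _ (by positivity), e8 _ _ (by positivity)]
  refine mul_le_mul_left (ENNReal.ofReal_le_ofReal ?_) _
  have e6 : Real.exp (-1) / 2 / (Real.exp c * (2 * ((d : ℝ) + 1)) ^ d) * δ ^ d *
      (2 * (Real.exp c * S) * m ^ d) = Real.exp (-1) * (S * δ ^ d) := by
    rw [← hm]
    have h1 : Real.exp c ≠ 0 := (Real.exp_pos c).ne'
    have h2 : m ^ d ≠ 0 := (pow_pos hm0 d).ne'
    field_simp
  have e7 : Real.exp (-1) ≤ Real.exp (-δ) := Real.exp_le_exp.2 (by linarith)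
  rw [e6]
  calc Real.exp (-1) * (S * δ ^ d) ≤ Real.exp (-δ) * (S * δ ^ d) :=
        mul_le_mul_of_nonneg_right e7 (by positivity)
    _ = Real.exp (-δ) * S * δ ^ d := by ring

end Pool.Agent.N383.KM
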