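import Pool.Agent.N383.KM.Vol
import Pool.Agent.N483.KM.Stm3

/-!
# Large sections and extensions of weights (for helper483)
-/

set_option autoImplicit false

namespace Pool.Agent.N383.KMW

open MeasureTheory Set Filter Topology
open scoped ENNReal
open Pool.Agent.N483.KM
open Pool.Agent.R754.KG (E sl Rv)
open Pool.Agent.R755.KF (CB)
open Pool.Agent.Y506.PV (CcW ind LCn)
open Pool.Agent.Y506.RG (EW VW Adm)

variable {N d n M : ℕ}

theorem haar_prod (a b : ℕ) : (volume : Measure (E a × E b)).IsAddHaarMeasure := by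
  rw [Measure.volume_eq_prod]
  infer_instance

theorem adm_int {w : E n → ℝ} (hw : Adm w) : Integrable w := by
  have h := hw.of_bd (fun _ => 1) measurable_const 1 fun x => by
    rw [abs_one, one_mul]
    nlinarith [sq_nonneg ‖x‖]
  simpa only [one_mul] using h

/-- sections of weights are integrable -/
theorem int_slice (h0 : S_LWD) (e : (E N × E d) ≃ₗ[ℝ] E n) {w : E n → ℝ} (hw : LW w) (t : E d) :
    Integrable fun x : E N => w (e (x, t)) := by
  obtain ⟨C, c, hC, hc, hb⟩ := h0 n w hw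
  let e' : (E N × E d) ≃L[ℝ] E n := e.toContinuousLinearEquiv
  obtain ⟨K, hK, hK1⟩ : ∃ K : ℝ, 0 < K ∧ ∀ x : E N, ‖x‖ ≤ K * ‖e (x, t)‖ := by
    refine ⟨‖(e'.symm : E n →L[ℝ] E N × E d)‖ + 1, by positivity, fun x => ?_⟩
    have h1 : ‖((x, t) : E N × E d)‖ ≤ ‖(e'.symm : E n →L[ℝ] E N × E d)‖ * ‖e (x, t)‖ := by
      have h3 := (e'.symm : E n →L[ℝ] E N × E d).le_opNorm (e (x, t))
      have h4 : (e'.symm : E n →L[ℝ] E N × E d) (e (x, t)) = (x, t) := e'.symm_apply_apply (x, t)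
      rwa [h4] at h3
    have h2 : ‖x‖ ≤ ‖((x, t) : E N × E d)‖ := norm_fst_le (x, t)
    nlinarith [norm_nonneg (e (x, t))]
  refine Integrable.mono' ((exp_int N (b := c / K) (by positivity)).const_mul C) ?_
    (Eventually.of_forall fun x => ?_)
  · have h1 : Measurable fun x : E N => e (x, t) :=
      (e'.continuous.comp (continuous_id.prodMk continuous_const)).measurable
    exact (hw.adm.meas.comp h1).aestronglyMeasurable
  · rw [Real.norm_of_nonneg (hw.adm.nonneg _)]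
    refine (hb _).trans (mul_le_mul_of_nonneg_left (Real.exp_le_exp.2 (neg_le_neg ?_)) hC.le)
    have h1 := hK1 x
    rw [div_mul_eq_mul_div, div_le_iff₀ hK]
    nlinarith

theorem ev_half (h4 : S_WMC) {w : E N → ℝ} (hw : LW w) :
    ∀ᶠ M : ℕ in atTop, (∫ x, w x) / 2 ≤ ∫ x, gM w M x ^ M := by
  obtain ⟨-, -, h3, -, -⟩ := h4 N w hw
  have hp := hw.adm.pos
  have h5 : ∀ᶠ M : ℕ in atTop, ∫ x, (1 + ‖x‖ ^ 2) * |gM w M x ^ M - w x| < (∫ x, w x) / 2 :=
    h3.eventually_lt_const (by linarith)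
  filter_upwards [h5, eventually_ge_atTop 1] with M h6 hM
  have hi : Integrable w := adm_int hw.adm
  have hg : Integrable fun x => gM w M x ^ M := gM_int hM hw.adm.meas hw.adm.nonneg hi
  have h8 : ∀ x, |gM w M x ^ M - w x| = w x - gM w M x ^ M := fun x => by
    rw [abs_sub_comm, abs_of_nonneg]
    linarith [gM_pow_le hM hw.adm.nonneg x]
  have h7 : ∫ x, (w x - gM w M x ^ M) ≤ ∫ x, (1 + ‖x‖ ^ 2) * |gM w M x ^ M - w x| := by
    refine integral_mono (hi.sub hg) ?_ fun x => ?_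
    · refine Integrable.mono' hw.adm.int ?_ (Eventually.of_forall fun x => ?_)
      · have m1 : Measurable fun x : E N => gM w M x ^ M := (gM_meas hw.adm.meas M).pow_const M
        have m2 : Measurable fun x : E N => (1 + ‖x‖ ^ 2) * |gM w M x ^ M - w x| := by
          refine Measurable.mul (by fun_prop) ?_
          exact (m1.sub hw.adm.meas).norm
        exact m2.aestronglyMeasurable
      · rw [Real.norm_of_nonneg (by positivity), h8]
        have h9 := pow_nonneg (gM_nonneg w M x) M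
        exact mul_le_mul_of_nonneg_left (by linarith) (by positivity)
    · change w x - gM w M x ^ M ≤ (1 + ‖x‖ ^ 2) * |gM w M x ^ M - w x|
      rw [h8]
      have h9 := gM_pow_le hM hw.adm.nonneg x
      have h10 : 0 ≤ ‖x‖ ^ 2 := by positivity
      nlinarith
  rw [integral_sub hi hg] at h7
  linarith

/-! ### The body in standard position -/

/-- `(p, y) ↦ (e1 (x, y), t)` where `p = e (x, t)` -/
noncomputable def psi (e : (E N × E d) ≃ₗ[ℝ] E n) (e1 : (E N × E M) ≃ₗ[ℝ] E (N + M)) :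
    (E n × E M) ≃ₗ[ℝ] (E (N + M) × E d) where
  toFun z := (e1 ((e.symm z.1).1, z.2), (e.symm z.1).2)
  map_add' x y := by
    have h1 : (((e.symm (x + y).1).1, (x + y).2) : E N × E M) =
        ((e.symm x.1).1, x.2) + ((e.symm y.1).1, y.2) := by
      rw [Prod.fst_add, map_add]
      rfl
    rw [h1, map_add, Prod.fst_add, map_add]
    rfl
  map_smul' c x := by
    have h1 : (((e.symm (c • x).1).1, (c • x).2) : E N × E M) = c • ((e.symm x.1).1, x.2) := by
      rw [Prod.smul_fst, map_smul]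
      rfl
    rw [h1, map_smul, Prod.smul_fst, map_smul]
    rfl
  invFun q := (e ((e1.symm q.1).1, q.2), (e1.symm q.1).2)
  left_inv z := by
    simp
  right_inv q := by
    simp

theorem mem_psi (e : (E N × E d) ≃ₗ[ℝ] E n) (e1 : (E N × E M) ≃ₗ[ℝ] E (N + M)) (A : Set (E n × E M))
    (q : E (N + M) × E d) :
    q ∈ psi e e1 '' A ↔ (e ((e1.symm q.1).1, q.2), (e1.symm q.1).2) ∈ A := by
  constructor
  · rintro ⟨z, hz, rfl⟩
    have h1 : (psi e e1).symm (psi e e1 z) = z := (psi e e1).symm_apply_apply z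
    change (psi e e1).symm (psi e e1 z) ∈ A
    rwa [h1]
  · intro h
    exact ⟨_, h, (psi e e1).apply_symm_apply q⟩

theorem sl_psi (e : (E N × E d) ≃ₗ[ℝ] E n) (e1 : (E N × E M) ≃ₗ[ℝ] E (N + M)) (w : E n → ℝ)
    (t : E d) : sl (psi e e1 '' BW w M) t = e1 '' BW (fun x : E N => w (e (x, t))) M := by
  ext x
  have h1 : x ∈ sl (psi e e1 '' BW w M) t ↔ (x, t) ∈ psi e e1 '' BW w M := Iff.rfl
  rw [h1, mem_psi]
  constructor
  · intro h
    exact ⟨e1.symm x, h, e1.apply_symm_apply x⟩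
  · rintro ⟨z, hz, rfl⟩
    have h2 : e1.symm (e1 z) = z := e1.symm_apply_apply z
    simp only [h2]
    exact hz

theorem cb_psi (e : (E N × E d) ≃ₗ[ℝ] E n) (e1 : (E N × E M) ≃ₗ[ℝ] E (N + M))
    {A : Set (E n × E M)} (hA : CB A) : CB (psi e e1 '' A) := by
  refine ⟨hA.conv.linear_image (psi e e1).toLinearMap,
    hA.comp.image (psi e e1).toContinuousLinearEquiv.continuous, ?_⟩
  have := haar_prod n M
  have := haar_prod (N + M) d
  obtain ⟨c, hc0, -, hc⟩ := vol_img (psi e e1)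
  rw [hc]
  exact ENNReal.mul_pos hc0 hA.pos.ne'

theorem key (h0 : S_LWD) (h3 : S_BWG) (h4 : S_WMC) {ε : ℝ} (hε : 0 < ε)
    (e : (E N × E d) ≃ₗ[ℝ] E n) {w : E n → ℝ} {t : E d} (hw : LW w)
    (hwt : LW fun x : E N => w (e (x, t)))
    (hs : ∀ t', ε * ∫ x, w (e (x, t')) ≤ ∫ x, w (e (x, t))) :
    ∀ᶠ M : ℕ in atTop, ∀ e1 : (E N × E M) ≃ₗ[ℝ] E (N + M), CB (psi e e1 '' BW w M) ∧
      (∀ t', ε / 2 * Rv (psi e e1 '' BW w M) t' ≤ Rv (psi e e1 '' BW w M) t) ∧
      sl (psi e e1 '' BW w M) t = e1 '' BW (fun x : E N => w (e (x, t))) M := by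
  filter_upwards [h3 n w hw, ev_half h4 hwt, eventually_ge_atTop 1] with M hM1 hM2 hM3 e1
  have := haar_prod N M
  obtain ⟨c, hc0, hc1, hc⟩ := vol_img e1
  have hm : ∀ t', Measurable fun x : E N => w (e (x, t')) := fun t' => by
    have h1 : Measurable fun x : E N => e (x, t') :=
      (e.toContinuousLinearEquiv.continuous.comp (continuous_id.prodMk continuous_const)).measurable
    exact hw.adm.meas.comp h1
  have hRv : ∀ t', Rv (psi e e1 '' BW w M) t' =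
      c.toReal * ∫ x, gM (fun x : E N => w (e (x, t'))) M x ^ M := by
    intro t'
    unfold Rv
    rw [sl_psi, hc, ENNReal.toReal_mul,
      vol_BW_toReal hM3 (hm t') (fun x => hw.adm.nonneg _) (int_slice h0 e hw t')]
  refine ⟨cb_psi e e1 hM1.1, fun t' => ?_, sl_psi e e1 w t⟩
  rw [hRv, hRv]
  have h5 := int_gM_le hM3 (hm t') (fun x => hw.adm.nonneg _) (int_slice h0 e hw t')
  have h6 := hs t'
  have h7 : 0 ≤ c.toReal := ENNReal.toReal_nonneg
  have h8 : ε / 2 * ∫ x, gM (fun x : E N => w (e (x, t'))) M x ^ M ≤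
      ∫ x, gM (fun x : E N => w (e (x, t))) M x ^ M := by
    have h9 : ε / 2 * ∫ x, gM (fun x : E N => w (e (x, t'))) M x ^ M ≤
        ε / 2 * ∫ x : E N, w (e (x, t')) := mul_le_mul_of_nonneg_left h5 (by positivity)
    linarith
  calc ε / 2 * (c.toReal * ∫ x, gM (fun x : E N => w (e (x, t'))) M x ^ M)
      = c.toReal * (ε / 2 * ∫ x, gM (fun x : E N => w (e (x, t'))) M x ^ M) := by ring
    _ ≤ _ := mul_le_mul_of_nonneg_left h8 h7

theorem exE (a b : ℕ) : Nonempty ((E a × E b) ≃ₗ[ℝ] E (a + b)) :=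
  ⟨LinearEquiv.ofFinrankEq _ _ (by
    rw [Module.finrank_prod, finrank_euclideanSpace_fin, finrank_euclideanSpace_fin,
      finrank_euclideanSpace_fin])⟩

/-- W8 -/
theorem t_WSE (h0 : S_LWD) (h1 : S_BWC) (h2 : S_BWI) (h3 : S_BWG) (h4 : S_WMC) (h5 : S_SECE) :
    S_WSE := by
  intro d ε hε
  obtain ⟨δs, hδs, H5⟩ := h5 d (ε / 2) (half_pos hε)
  obtain ⟨δ', hδ', H1⟩ := h1 δs hδs
  refine ⟨δ', hδ', fun κ' δ hκ' hδ => ?_⟩
  obtain ⟨κ1, hκ1, G1⟩ := H1 κ' hκ'
  obtain ⟨κ2, hκ2, G5⟩ := H5 κ1 δ hκ1 hδ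
  refine ⟨κ2 / 2, half_pos hκ2, fun N n e w t hw hwt hs hcc => ?_⟩
  refine h2 N κ2 δ _ hκ2 hwt ?_
  filter_upwards [G1 n w hw hcc, key h0 h3 h4 hε e hw hwt hs] with M hM1 hM2
  obtain ⟨e1⟩ := exE N M
  obtain ⟨e2⟩ := exE (N + M) d
  obtain ⟨k1, k2, k3⟩ := hM2 e1
  refine ⟨N + M, e1, ?_⟩
  have k4 := hM1 (N + M + d) ((psi e e1).trans e2)
  have k5 : ((psi e e1).trans e2) '' BW w M = e2 '' (psi e e1 '' BW w M) := by
    rw [← image_comp]
    rfl
  rw [k5] at k4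
  rw [← k3]
  exact G5 (N + M) (N + M + d) e2 _ t k1 k2 k4

/-- W9 -/
theorem t_WEX (h0 : S_LWD) (h1 : S_BWC) (h2 : S_BWI) (h3 : S_BWG) (h4 : S_WMC) (h5 : S_ONE) :
    S_WEX := by
  intro d ε δ hε hδ
  obtain ⟨δ1, hδ1, H5⟩ := h5 d (ε / 2) δ (half_pos hε) hδ
  obtain ⟨δ', hδ', H1⟩ := h1 δ1 hδ1
  refine ⟨δ', hδ', fun κ' hκ' => ?_⟩
  obtain ⟨κ1, hκ1, G1⟩ := H1 κ' hκ'
  obtain ⟨κ2, hκ2, G5⟩ := H5 κ1 hκ1
  refine ⟨κ2 / 2, half_pos hκ2, fun N n e w t hw hwt hs hcc => ?_⟩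
  refine h2 n κ2 δ w hκ2 hw ?_
  filter_upwards [G1 N _ hwt hcc, key h0 h3 h4 hε e hw hwt hs] with M hM1 hM2
  obtain ⟨e1⟩ := exE N M
  obtain ⟨e2⟩ := exE (N + M) d
  obtain ⟨k1, k2, k3⟩ := hM2 e1
  refine ⟨N + M + d, (psi e e1).trans e2, ?_⟩
  have k4 := G5 (N + M) (N + M + d) e2 _ t k1 k2 (by rw [k3]; exact hM1 (N + M) e1)
  have k5 : ((psi e e1).trans e2) '' BW w M = e2 '' (psi e e1 '' BW w M) := by
    rw [← image_comp]
    rfl
  rw [k5]
  exact k4

end Pool.Agent.N383.KMW
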